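import Mathlib

namespace Pool.Agent.H.MP_1b30fb_an

open Finset

section norms
variable {X : Type*} [Fintype X] [DecidableEq X]

/-- operator norm for the Euclidean norms -/
noncomputable def opn (T : Matrix X X ℂ) : ℝ := ‖Matrix.toEuclideanCLM (n := X) (𝕜 := ℂ) T‖

lemma opn_nonneg (T : Matrix X X ℂ) : 0 ≤ opn T := norm_nonneg _

lemma sq_le (T : Matrix X X ℂ) (z : X → ℂ) :
    ∑ x, ‖(T.mulVec z) x‖ ^ 2 ≤ opn T ^ 2 * ∑ x, ‖z x‖ ^ 2 := by
  have h := (Matrix.toEuclideanCLM (n := X) (𝕜 := ℂ) T).le_opNorm (WithLp.toLp 2 z)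
  rw [Matrix.toEuclideanCLM_toLp] at h
  have h2 := pow_le_pow_left₀ (norm_nonneg _) h 2
  rw [mul_pow, EuclideanSpace.norm_sq_eq, EuclideanSpace.norm_sq_eq] at h2
  simpa [opn] using h2

lemma card_le (T : Matrix X X ℂ) (h : ∀ x y, ‖T x y‖ = 1) (y : X) :
    (Fintype.card X : ℝ) ≤ opn T ^ 2 := by
  have := sq_le T (Pi.single y 1)
  simp only [Matrix.mulVec_single_one, Matrix.col_apply, h] at this
  have h2 : ∑ x, ‖(Pi.single y (1:ℂ) : X → ℂ) x‖ ^ 2 = 1 := by
    rw [Finset.sum_eq_single y] <;> simp +contextual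
  simpa [h2] using this

lemma comb_le (T : Matrix X X ℂ) (hT : IsUnit T.det) (s : Finset ℕ) (e : ℕ → X)
    (he : Set.InjOn e s) (c : ℕ → ℂ) :
    ∑ k ∈ s, ‖c k‖ ^ 2 ≤ opn T⁻¹ ^ 2 * ∑ x, ‖∑ k ∈ s, c k * T x (e k)‖ ^ 2 := by
  set z : X → ℂ := fun y => ∑ k ∈ s with e k = y, c k with hz
  have h1 : T.mulVec z = fun x => ∑ k ∈ s, c k * T x (e k) := by
    funext x
    simp only [Matrix.mulVec, dotProduct, hz, Finset.mul_sum]
    rw [← Finset.sum_fiberwise s e]
    refine Finset.sum_congr rfl fun y _ => Finset.sum_congr rfl fun k hk => ?_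
    rw [(Finset.mem_filter.1 hk).2, mul_comm]
  have h2 : T⁻¹.mulVec (T.mulVec z) = z := by
    rw [Matrix.mulVec_mulVec, Matrix.nonsing_inv_mul _ hT, Matrix.one_mulVec]
  have h3 := sq_le T⁻¹ (T.mulVec z)
  rw [h2, h1] at h3
  refine le_trans ?_ h3
  rw [← Finset.sum_fiberwise s e]
  refine Finset.sum_le_sum fun y _ => ?_
  by_cases hy : ∃ k ∈ s, e k = y
  · obtain ⟨k, hk, rfl⟩ := hy
    have : s.filter (fun j => e j = e k) = {k} := by
      ext j
      simp only [Finset.mem_filter, Finset.mem_singleton]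
      exact ⟨fun h => he h.1 hk h.2, fun h => by subst h; exact ⟨hk, rfl⟩⟩
    simp [hz, this]
  · have : s.filter (fun j => e j = y) = ∅ := by
      apply Finset.filter_eq_empty_iff.2
      intro j hj h
      exact hy ⟨j, hj, h⟩
    simp [this]

end norms

section walk
variable {ι V W : Type*} [Fintype ι] [Fintype V] [Fintype W] [DecidableEq V] [DecidableEq W]

lemma exists_ker (β : ι → V) (γ : ι → W) (w0 : W)
    (hc : Fintype.card V + Fintype.card W ≤ Fintype.card ι) :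
    ∃ y : ι → ℚ, y ≠ 0 ∧ (∀ v, ∑ i with β i = v, y i = 0) ∧ (∀ w, ∑ i with γ i = w, y i = 0) := by
  let f : (ι → ℚ) →ₗ[ℚ] (V → ℚ) × ({w : W // w ≠ w0} → ℚ) :=
    { toFun := fun y => (fun v => ∑ i with β i = v, y i, fun w => ∑ i with γ i = w.1, y i)
      map_add' := by intro a b; ext <;> simp [Finset.sum_add_distrib]
      map_smul' := by intro a b; ext <;> simp [Finset.mul_sum] }
  have hW : 0 < Fintype.card W := Fintype.card_pos_iff.2 ⟨w0⟩
  have hlt : Module.finrank ℚ ((V → ℚ) × ({w : W // w ≠ w0} → ℚ)) < Module.finrank ℚ (ι → ℚ) := by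
    simp only [Module.finrank_prod, Module.finrank_fintype_fun_eq_card, Fintype.card_subtype_compl,
      Fintype.card_unique]
    omega
  obtain ⟨y, hy, hy0⟩ := (Submodule.ne_bot_iff _).1 (LinearMap.ker_ne_bot_of_finrank_lt (f := f) hlt)
  have h1 : ∀ v, ∑ i with β i = v, y i = 0 := fun v => congrFun (congrArg Prod.fst hy) v
  have h2 : ∀ w, w ≠ w0 → ∑ i with γ i = w, y i = 0 := fun w hw =>
    congrFun (congrArg Prod.snd hy) ⟨w, hw⟩
  refine ⟨y, hy0, h1, fun w => ?_⟩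
  by_cases hw : w = w0
  · subst hw
    have e1 : ∑ i, y i = 0 := by
      rw [← Finset.sum_fiberwise univ β]; simp [h1]
    rw [← Finset.sum_fiberwise univ γ, Finset.sum_eq_single w] at e1
    · exact e1
    · intro b _ hb; exact h2 b hb
    · simp
  · exact h2 w hw

omit [Fintype V] in
lemma other (β : ι → V) (y : ι → ℚ) (h : ∀ v, ∑ i with β i = v, y i = 0) (i : ι) (hi : y i ≠ 0) :
    ∃ j, y j ≠ 0 ∧ j ≠ i ∧ β j = β i := by
  by_contra hn
  push Not at hn
  apply hi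
  rw [← h (β i), Finset.sum_eq_single i]
  · intro j hj hji
    by_contra h0
    exact hn j h0 hji (Finset.mem_filter.1 hj).2
  · simp

lemma exists_walk (β : ι → V) (γ : ι → W) (w0 : W)
    (hc : Fintype.card V + Fintype.card W ≤ Fintype.card ι) :
    ∃ e : ℕ → ι, ∀ k, e (k + 1) ≠ e k ∧ (Even k → β (e (k + 1)) = β (e k)) ∧
      (¬ Even k → γ (e (k + 1)) = γ (e k)) := by
  obtain ⟨y, hy, h1, h2⟩ := exists_ker β γ w0 hc
  obtain ⟨i0, hi0⟩ := Function.ne_iff.1 hy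
  have step : ∀ (k : ℕ) (i : {i // y i ≠ 0}), ∃ j : {i // y i ≠ 0}, j.1 ≠ i.1 ∧
      (Even k → β j.1 = β i.1) ∧ (¬ Even k → γ j.1 = γ i.1) := by
    intro k i
    by_cases hk : Even k
    · obtain ⟨j, hj, hne, hb⟩ := other β y h1 i.1 i.2
      exact ⟨⟨j, hj⟩, hne, fun _ => hb, fun h => absurd hk h⟩
    · obtain ⟨j, hj, hne, hb⟩ := other γ y h2 i.1 i.2
      exact ⟨⟨j, hj⟩, hne, fun h => absurd h hk, fun _ => hb⟩
  choose g hg using step
  let e : ℕ → {i // y i ≠ 0} := fun k => Nat.rec ⟨i0, hi0⟩ (fun k a => g k a) k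
  exact ⟨fun k => (e k).1, fun k => hg k (e k)⟩

end walk

lemma tele (u : ℕ → ℂ) (i j : ℕ) (hij : i ≤ j) :
    ∑ k ∈ Ico i j, (-1) ^ k * (u k + u (k + 1)) = (-1) ^ i * u i - (-1) ^ j * u j := by
  induction j, hij using Nat.le_induction with
  | base => simp
  | succ j hj ih => rw [Finset.sum_Ico_succ_top hj, ih]; ring

end Pool.Agent.H.MP_1b30fb_an
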