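import Pool.Agent.H.MP_1b30fb_an.Core

namespace Pool.Agent.H.MP_1b30fb_an

open Finset

variable {X V W : Type*} [Fintype X] [DecidableEq X] [Fintype V] [Fintype W] [DecidableEq V]
  [DecidableEq W]

lemma norm_alt_le (s : Finset ℕ) (r : ℕ → ℂ) (hr : ∀ k, ‖r k‖ = 1) :
    ‖∑ k ∈ s, (-1) ^ k * r k‖ ≤ s.card := by
  refine (norm_sum_le _ _).trans ?_
  simp [hr]

lemma exists_ab (R1 R2 : ℂ) : ∃ a b : ℂ, ‖a‖ ≤ 1 ∧ ‖b‖ ≤ 1 ∧ 1 ≤ ‖a‖ ^ 2 + ‖b‖ ^ 2 ∧
    a * R1 + b * R2 = 0 := by
  rcases le_total ‖R1‖ ‖R2‖ with h | h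
  · refine ⟨1, -(R1 / R2), by simp, ?_, by simp [sq_nonneg], ?_⟩
    · rw [norm_neg, norm_div]; exact div_le_one_of_le₀ h (norm_nonneg _)
    · by_cases h2 : R2 = 0
      · have : R1 = 0 := by simpa [h2] using h
        simp [h2, this]
      · field_simp; ring
  · refine ⟨-(R2 / R1), 1, ?_, by simp, by simp [sq_nonneg], ?_⟩
    · rw [norm_neg, norm_div]; exact div_le_one_of_le₀ h (norm_nonneg _)
    · by_cases h2 : R1 = 0
      · have : R2 = 0 := by simpa [h2] using h
        simp [h2, this]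
      · field_simp; ring

theorem main (T : Matrix X X ℂ) (hT : IsUnit T.det) (h1 : ∀ x y, ‖T x y‖ = 1) (x0 : X)
    (β : X → V) (γ : X → W) (A : V → X → ℂ) (C : W → X → ℂ) (hA : ∀ v x, ‖A v x‖ ≤ 1)
    (hC : ∀ w x, ‖C w x‖ ≤ 1) (h : ∀ x, x ≠ x0 → ∀ y, T x y = A (β y) x + C (γ y) x)
    (hc : Fintype.card V + Fintype.card W ≤ Fintype.card X) (K : ℕ) (hK : 0 < K) :
    (K : ℝ) / 16 ≤ opn T ^ 2 * opn T⁻¹ ^ 2 ∨
      (Fintype.card X : ℝ) / (2 * K) ≤ opn T ^ 2 * opn T⁻¹ ^ 2 := by
  obtain ⟨e, he⟩ := exists_walk β γ (γ x0) hc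
  have hcard := card_le T h1 x0
  have hX : (0:ℝ) < Fintype.card X := by exact_mod_cast Fintype.card_pos_iff.2 ⟨x0⟩
  have hN : 0 ≤ opn T⁻¹ ^ 2 := sq_nonneg _
  set u : X → ℕ → ℂ := fun x k => if Even k then C (γ (e k)) x else A (β (e k)) x with hu
  have hu1 : ∀ x k, ‖u x k‖ ≤ 1 := by
    intro x k; simp only [hu]; split_ifs
    · exact hC _ _
    · exact hA _ _
  have hTu : ∀ x, x ≠ x0 → ∀ k, T x (e k) = u x k + u x (k + 1) := by
    intro x hx k
    rw [h x hx]
    by_cases hk : Even k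
    · have : ¬ Even (k + 1) := by simpa [Nat.even_add_one] using hk
      simp only [hu, if_pos hk, if_neg this, (he k).2.1 hk]; ring
    · have : Even (k + 1) := by simpa [Nat.even_add_one] using hk
      simp only [hu, if_neg hk, if_pos this, (he k).2.2 hk]
  have hS : ∀ x, x ≠ x0 → ∀ i j, i ≤ j → ∑ k ∈ Ico i j, (-1) ^ k * T x (e k) =
      (-1) ^ i * u x i - (-1) ^ j * u x j := by
    intro x hx i j hij
    rw [← tele _ i j hij]
    exact Finset.sum_congr rfl fun k _ => by rw [hTu x hx]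
  have hS2 : ∀ x, x ≠ x0 → ∀ i j, i ≤ j → ‖∑ k ∈ Ico i j, (-1) ^ k * T x (e k)‖ ≤ 2 := by
    intro x hx i j hij
    rw [hS x hx i j hij]
    refine (norm_sub_le _ _).trans ?_
    have a1 := hu1 x i
    have a2 := hu1 x j
    simp only [norm_mul, norm_pow, norm_neg, norm_one, one_pow, one_mul]
    linarith
  by_cases hinj : Set.InjOn e (Ico 0 (2 * K) : Finset ℕ)
  · left
    obtain ⟨a, b, ha, hb, hab, h0⟩ := exists_ab (∑ k ∈ Ico 0 K, (-1) ^ k * T x0 (e k))
      (∑ k ∈ Ico K (2 * K), (-1) ^ k * T x0 (e k))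
    have key := comb_le T hT _ e hinj (fun k => (if k < K then a else b) * (-1) ^ k)
    have split : ∀ f : ℕ → ℂ, ∑ k ∈ Ico 0 (2 * K), (if k < K then a else b) * (-1) ^ k * f k =
        a * ∑ k ∈ Ico 0 K, (-1) ^ k * f k + b * ∑ k ∈ Ico K (2 * K), (-1) ^ k * f k := by
      intro f
      rw [← Finset.sum_Ico_consecutive _ (Nat.zero_le K) (by omega), Finset.mul_sum, Finset.mul_sum]
      congr 1
      · refine Finset.sum_congr rfl fun k hk => ?_
        rw [if_pos (Finset.mem_Ico.1 hk).2]; ring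
      · refine Finset.sum_congr rfl fun k hk => ?_
        rw [if_neg (not_lt.2 (Finset.mem_Ico.1 hk).1)]; ring
    have lhs : (K : ℝ) ≤ ∑ k ∈ Ico 0 (2 * K), ‖(if k < K then a else b) * (-1 : ℂ) ^ k‖ ^ 2 := by
      rw [← Finset.sum_Ico_consecutive _ (Nat.zero_le K) (by omega)]
      have e1 : ∑ k ∈ Ico 0 K, ‖(if k < K then a else b) * (-1 : ℂ) ^ k‖ ^ 2 = K * ‖a‖ ^ 2 := by
        rw [Finset.sum_congr rfl (g := fun _ => ‖a‖ ^ 2)]
        · simp
        · intro k hk; rw [if_pos (Finset.mem_Ico.1 hk).2]; simp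
      have e2 : ∑ k ∈ Ico K (2 * K), ‖(if k < K then a else b) * (-1 : ℂ) ^ k‖ ^ 2 =
          K * ‖b‖ ^ 2 := by
        rw [Finset.sum_congr rfl (g := fun _ => ‖b‖ ^ 2)]
        · have : 2 * K - K = K := by omega
          simp [this]
        · intro k hk; rw [if_neg (not_lt.2 (Finset.mem_Ico.1 hk).1)]; simp
      rw [e1, e2, ← mul_add]
      exact le_mul_of_one_le_right (Nat.cast_nonneg _) hab
    have rhs : ∑ x, ‖∑ k ∈ Ico 0 (2 * K), (if k < K then a else b) * (-1) ^ k * T x (e k)‖ ^ 2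
        ≤ Fintype.card X * 16 := by
      have : ∀ x, ‖∑ k ∈ Ico 0 (2 * K), (if k < K then a else b) * (-1) ^ k * T x (e k)‖ ^ 2
          ≤ 16 := by
        intro x
        rw [split]
        by_cases hx : x = x0
        · rw [hx, h0]; simp
        · have b1 := hS2 x hx 0 K (Nat.zero_le _)
          have b2 := hS2 x hx K (2 * K) (by omega)
          have : ‖a * ∑ k ∈ Ico 0 K, (-1) ^ k * T x (e k) +
              b * ∑ k ∈ Ico K (2 * K), (-1) ^ k * T x (e k)‖ ≤ 4 := by
            refine (norm_add_le _ _).trans ?_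
            rw [norm_mul, norm_mul]
            have := mul_le_mul ha b1 (norm_nonneg _) zero_le_one
            have := mul_le_mul hb b2 (norm_nonneg _) zero_le_one
            linarith
          have := pow_le_pow_left₀ (norm_nonneg _) this 2
          linarith
      refine (Finset.sum_le_sum fun x _ => this x).trans ?_
      simp
    have := lhs.trans (key.trans (mul_le_mul_of_nonneg_left rhs hN))
    have h3 := mul_le_mul_of_nonneg_right hcard hN
    linarith
  · right
    have hex : ∃ j, ∃ i < j, e i = e j := by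
      by_contra hn
      push Not at hn
      apply hinj
      intro i _ j _ hij
      rcases lt_trichotomy i j with h | h | h
      · exact absurd hij (hn j i h)
      · exact h
      · exact absurd hij.symm (hn i j h)
    classical
    have hj := Nat.find_spec hex
    have hmin := fun m => Nat.find_min hex (m := m)
    set j := Nat.find hex with hjdef
    obtain ⟨i, hij, hee⟩ := hj
    have hinj2 : ∀ a < j, ∀ b < j, e a = e b → a = b := by
      intro a ha b hb hab
      rcases lt_trichotomy a b with h | h | h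
      · exact absurd ⟨a, h, hab⟩ (hmin b hb)
      · exact h
      · exact absurd ⟨b, h, hab.symm⟩ (hmin a ha)
    have hjK : j < 2 * K := by
      by_contra hn
      apply hinj
      intro a ha b hb hab
      have ha' := (Finset.mem_Ico.1 (Finset.mem_coe.1 ha)).2
      have hb' := (Finset.mem_Ico.1 (Finset.mem_coe.1 hb)).2
      exact hinj2 a (by omega) b (by omega) hab
    have hi' : ∃ i' < j, ∀ x, x ≠ x0 → (-1 : ℂ) ^ i' * u x i' - (-1) ^ j * u x j = 0 := by
      by_cases hp : (Even i ↔ Even j)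
      · refine ⟨i, hij, fun x _ => ?_⟩
        by_cases hi : Even i
        · have hj := hp.1 hi
          simp [hu, hi, hj, hee, hi.neg_one_pow, hj.neg_one_pow]
        · have hj : ¬ Even j := fun h => hi (hp.2 h)
          simp [hu, hi, hj, hee, (Nat.not_even_iff_odd.1 hi).neg_one_pow,
            (Nat.not_even_iff_odd.1 hj).neg_one_pow]
      · have hne : j ≠ i + 1 := by
          intro h; apply (he i).1; rw [← h, hee]
        refine ⟨i + 1, by omega, fun x _ => ?_⟩
        by_cases hi : Even i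
        · have hj : ¬ Even j := fun h => hp ⟨fun _ => h, fun _ => hi⟩
          have hi1 : ¬ Even (i + 1) := by simpa [Nat.even_add_one] using hi
          simp only [hu, if_neg hj, if_neg hi1, (he i).2.1 hi, hee,
            (Nat.not_even_iff_odd.1 hi1).neg_one_pow, (Nat.not_even_iff_odd.1 hj).neg_one_pow,
            sub_self]
        · have hj : Even j := by
            by_contra h; exact hp ⟨fun h' => absurd h' hi, fun h' => absurd h' h⟩
          have hi1 : Even (i + 1) := by simpa [Nat.even_add_one] using hi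
          simp only [hu, if_pos hj, if_pos hi1, (he i).2.2 hi, hee,
            hi1.neg_one_pow, hj.neg_one_pow, sub_self]
    obtain ⟨i', hi'j, hz⟩ := hi'
    have hinj3 : Set.InjOn e (Ico i' j : Finset ℕ) := by
      intro a ha b hb hab
      exact hinj2 a (Finset.mem_Ico.1 (Finset.mem_coe.1 ha)).2 b
        (Finset.mem_Ico.1 (Finset.mem_coe.1 hb)).2 hab
    have key := comb_le T hT _ e hinj3 (fun k => (-1) ^ k)
    set L : ℝ := ((Ico i' j).card : ℝ) with hL
    have hL0 : 0 < L := by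
      rw [hL]; exact_mod_cast Finset.card_pos.2 (Finset.nonempty_Ico.2 hi'j)
    have hL2 : L ≤ 2 * K := by
      rw [hL, Nat.card_Ico]; exact_mod_cast (by omega : j - i' ≤ 2 * K)
    have lhs : ∑ k ∈ Ico i' j, ‖(-1 : ℂ) ^ k‖ ^ 2 = L := by simp [hL]
    have rhs : ∑ x, ‖∑ k ∈ Ico i' j, (-1) ^ k * T x (e k)‖ ^ 2 ≤ L ^ 2 := by
      rw [Finset.sum_eq_single x0]
      · exact pow_le_pow_left₀ (norm_nonneg _) (norm_alt_le _ _ fun k => h1 _ _) 2
      · intro x _ hx
        rw [hS x hx _ _ hi'j.le, hz x hx]; simp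
      · simp
    rw [lhs] at key
    have k2 := key.trans (mul_le_mul_of_nonneg_left rhs hN)
    have k3 : 1 ≤ opn T⁻¹ ^ 2 * L := by
      have : L * 1 ≤ L * (opn T⁻¹ ^ 2 * L) := by nlinarith
      exact le_of_mul_le_mul_left this hL0
    have k4 : 1 ≤ opn T⁻¹ ^ 2 * (2 * K) := k3.trans (mul_le_mul_of_nonneg_left hL2 hN)
    have hK' : (0:ℝ) < 2 * K := by positivity
    rw [div_le_iff₀ hK']
    calc (Fintype.card X : ℝ) ≤ opn T ^ 2 := hcard
      _ ≤ opn T ^ 2 * (opn T⁻¹ ^ 2 * (2 * K)) := le_mul_of_one_le_right (sq_nonneg _) k4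
      _ = _ := by ring

end Pool.Agent.H.MP_1b30fb_an
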